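import Mathlib
import Pool.Agent.H79.Pieces
import Pool.Agent.H79.Digits
import Pool.Agent.H79.Holder
import Pool.Agent.H79.Exceptional
import Pool.Agent.H79.Glue

/-!
# A continuous real function on the plane that at most halves dimensions above one

We construct in ZFC a continuous `f : ℝ² → ℝ` with `dim_H f(E) ≥ dim_H(E) / 2` for every
`E ⊆ ℝ²` with `dim_H E > 1`.  Hence for `0 < s < 1` no set of dimension `1 + s` has all its
continuous real images of dimension at most `s`.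
-/

set_option autoImplicit false

open Set Filter Topology
open scoped NNReal ENNReal

noncomputable section

namespace Pool.Agent.Results.MP_2d1133_lc.HalfDimension

open Pool.Agent.H79.Pieces Pool.Agent.H79.Digits Pool.Agent.H79.Holder
  Pool.Agent.H79.Exceptional Pool.Agent.H79.Glue

/-- index type of the planar pieces -/
abbrev Idx : Type := (ℕ × ℕ × ℤ) × (ℕ × ℕ × ℤ)

/-- enumeration of the planar pieces -/
def P (n : ℕ) : Set (ℝ × ℝ) :=
  K ((Denumerable.eqv Idx).symm n).1 ×ˢ K ((Denumerable.eqv Idx).symm n).2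

lemma P_compact (n : ℕ) : IsCompact (P n) := (isCompact_K _).prod (isCompact_K _)

lemma P_subset (n : ℕ) : P n ⊆ I2 := fun _ hz => ⟨K_irrational hz.1, K_irrational hz.2⟩

lemma P_disjoint (n m : ℕ) (hnm : n ≠ m) : Disjoint (P n) (P m) := by
  rw [Set.disjoint_left]
  intro z hz hz'
  apply hnm
  have h1 := K_disjoint hz.1 hz'.1
  have h2 := K_disjoint hz.2 hz'.2
  exact (Denumerable.eqv Idx).symm.injective (Prod.ext h1 h2)

lemma cover (z : ℝ × ℝ) (hz : z ∉ Z2) : ∃ n, z ∈ P n := by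
  simp only [Z2, mem_ofPred_eq, not_or] at hz
  obtain ⟨a, ha⟩ := exists_K hz.1
  obtain ⟨b, hb⟩ := exists_K hz.2
  refine ⟨Denumerable.eqv Idx (a, b), ?_⟩
  unfold P
  rw [Equiv.symm_apply_apply]
  exact ⟨ha, hb⟩

/-- The main construction on `ℝ × ℝ`. -/
theorem main_prod : ∃ f : ℝ × ℝ → ℝ, Continuous f ∧
    ∀ E : Set (ℝ × ℝ), 1 < dimH E → dimH E ≤ 2 * dimH (f '' E) := by
  obtain ⟨f, hf, hloc⟩ := glue P P_compact P_subset P_disjoint
  refine ⟨f, hf, fun E hE => ?_⟩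
  -- for every exponent `κ < 1/2`
  have key : ∀ κ : ℝ, 0 < κ → κ < 1/2 → dimH E ≤ dimH (f '' E) / ENNReal.ofReal κ := by
    intro κ h0 h1
    obtain ⟨C, hC, hhol⟩ := holder_F κ h0 h1
    choose l hl m hm using hloc
    -- the local pieces
    set Q : ℕ × (ℤ × ℤ) → Set (ℝ × ℝ) := fun a => E ∩ (P a.1 ∩ {z | cell (m a.1) z = a.2})
      with hQ
    have hcov : E ⊆ Z2 ∪ ⋃ a, Q a := by
      intro z hz
      by_cases h : z ∈ Z2
      · exact Or.inl h
      · obtain ⟨n, hn⟩ := cover z h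
        exact Or.inr (mem_iUnion.2 ⟨(n, cell (m n) z), hz, hn, rfl⟩)
    have hQd : ∀ a, dimH (Q a) ≤ dimH (f '' E) / ENNReal.ofReal κ := by
      intro a
      have hh : ∀ z ∈ Q a, ∀ z' ∈ Q a,
          dist z z' ≤ (C * ((l a.1)⁻¹) ^ κ) * |f z - f z'| ^ κ := by
        rintro z ⟨_, hz1, hz2⟩ z' ⟨_, hz1', hz2'⟩
        have e1 := hm a.1 z hz1 z' hz1' (hz2.trans hz2'.symm)
        have e2 : |F z - F z'| = (l a.1)⁻¹ * |f z - f z'| := by
          rw [e1, abs_mul, abs_of_pos (hl a.1)]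
          have := (hl a.1).ne'
          field_simp
        have e3 := hhol z z' (floor_eq_of_mem_K hz1.1 hz1'.1) (floor_eq_of_mem_K hz1.2 hz1'.2)
        rw [e2, Real.mul_rpow (inv_nonneg.2 (hl a.1).le) (abs_nonneg _), ← mul_assoc] at e3
        exact e3
      have hpos : 0 < C * ((l a.1)⁻¹) ^ κ := by
        have := hl a.1
        positivity
      have h2 := dimH_le_of_inverse_holder hpos h0 hh
      refine h2.trans ?_
      apply ENNReal.div_le_div_right
      exact dimH_mono (image_mono inter_subset_left)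
    have h3 : dimH E ≤ max (dimH Z2) (dimH (⋃ a, Q a)) := by
      rw [← dimH_union]; exact dimH_mono hcov
    have h4 : dimH (⋃ a, Q a) ≤ dimH (f '' E) / ENNReal.ofReal κ := by
      rw [dimH_iUnion]; exact iSup_le hQd
    rcases le_max_iff.1 h3 with h | h
    · exact absurd (h.trans dimH_Z2) (not_le.2 hE)
    · exact h.trans h4
  -- let `κ → 1/2`
  have hfin : dimH (f '' E) ≠ ∞ := Real.dimH_ne_top _
  have hfinE : dimH E ≠ ∞ := Real.dimH_ne_top _
  set d : ℝ := (dimH (f '' E)).toReal with hd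
  set e : ℝ := (dimH E).toReal with he
  have hreal : ∀ κ : ℝ, 0 < κ → κ < 1/2 → e * κ ≤ d := by
    intro κ h0 h1
    have h := key κ h0 h1
    rw [ENNReal.le_div_iff_mul_le (Or.inl (by simpa using h0)) (Or.inl ENNReal.ofReal_ne_top)] at h
    have h' := ENNReal.toReal_mono hfin h
    rwa [ENNReal.toReal_mul, ENNReal.toReal_ofReal h0.le] at h'
  have hlim : e * (1/2) ≤ d := by
    have ht : Tendsto (fun κ : ℝ => e * κ) (𝓝[<] (1/2)) (𝓝 (e * (1/2))) :=
      (tendsto_nhdsWithin_of_tendsto_nhds (continuous_const.mul continuous_id).continuousAt)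
    refine le_of_tendsto ht ?_
    have h1 : ∀ᶠ κ : ℝ in 𝓝[<] (1/2), κ < 1/2 := eventually_mem_nhdsWithin
    have h2 : ∀ᶠ κ : ℝ in 𝓝[<] (1/2), 0 < κ :=
      eventually_nhdsWithin_of_eventually_nhds (lt_mem_nhds (by norm_num))
    filter_upwards [h1, h2] with κ h1 h2
    exact hreal κ h2 h1
  rw [← ENNReal.ofReal_toReal hfinE, ← ENNReal.ofReal_toReal hfin, ← he, ← hd]
  rw [show (2:ℝ≥0∞) = ENNReal.ofReal 2 by simp, ← ENNReal.ofReal_mul (by norm_num)]
  apply ENNReal.ofReal_le_ofReal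
  linarith

/-- **Negative answer to Q1 for every `s ∈ (0,1)`, in ZFC.** There is a continuous
`f : ℝ² → ℝ` such that `dim_H E ≤ 2 dim_H f(E)` whenever `dim_H E > 1`; consequently, for all
`0 < s < 1`, every `E ⊆ ℝ²` with `dim_H E = 1 + s` satisfies `dim_H f(E) > s`. -/
theorem result : ∃ f : EuclideanSpace ℝ (Fin 2) → ℝ, Continuous f ∧
    (∀ E : Set (EuclideanSpace ℝ (Fin 2)), 1 < dimH E → dimH E ≤ 2 * dimH (f '' E)) ∧
    ∀ s : ℝ≥0, 0 < s → s < 1 → ∀ E : Set (EuclideanSpace ℝ (Fin 2)),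
      dimH E = 1 + s → (s : ℝ≥0∞) < dimH (f '' E) := by
  obtain ⟨f, hf, hmain⟩ := main_prod
  -- the linear homeomorphism with `ℝ × ℝ`
  set e : EuclideanSpace ℝ (Fin 2) ≃L[ℝ] (ℝ × ℝ) :=
    (EuclideanSpace.equiv (Fin 2) ℝ).trans (ContinuousLinearEquiv.finTwoArrow ℝ ℝ) with he
  have h1 : ∀ E : Set (EuclideanSpace ℝ (Fin 2)), 1 < dimH E →
      dimH E ≤ 2 * dimH ((f ∘ e) '' E) := by
    intro E hE
    have h2 := e.dimH_image E
    rw [image_comp, ← h2]
    rw [← h2] at hE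
    exact hmain _ hE
  refine ⟨f ∘ e, hf.comp e.continuous, h1, ?_⟩
  intro s hs0 hs1 E hE
  have hs0' : (0 : ℝ≥0∞) < s := by exact_mod_cast hs0
  have h2 := h1 E (by
    rw [hE]
    calc (1 : ℝ≥0∞) = 1 + 0 := by rw [add_zero]
      _ < 1 + s := ENNReal.add_lt_add_left ENNReal.one_ne_top hs0')
  by_contra hcon
  rw [not_lt] at hcon
  rw [hE] at h2
  have h3 : (1 : ℝ≥0∞) + s ≤ 2 * s := h2.trans (by gcongr)
  have h4 : (1 + s : ℝ≥0) ≤ 2 * s := by exact_mod_cast h3
  have h5 : (1 : ℝ) + s ≤ 2 * s := by exact_mod_cast h4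
  have h6 : (s : ℝ) < 1 := by exact_mod_cast hs1
  linarith

end Pool.Agent.Results.MP_2d1133_lc.HalfDimension
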